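import Mathlib

/-!
# Spherical clusters in Euclidean space (MP_5bdae7_gt): definitions and leaves
-/

open MeasureTheory Set Metric
open scoped ENNReal Topology ContDiff

noncomputable section

namespace Pool.Agent.N891.KS

/-- Euclidean three-space. -/
abbrev E3 := EuclideanSpace ℝ (Fin 3)

/-- A cluster with `k` bounded cells: pairwise disjoint open sets of finite positive volume. -/
structure Cluster (k : ℕ) where
  cell : Fin k → Set E3
  isOpen_cell : ∀ i, IsOpen (cell i)
  disjoint_cell : ∀ i j, i ≠ j → Disjoint (cell i) (cell j)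
  volume_pos : ∀ i, 0 < volume (cell i)
  volume_lt_top : ∀ i, volume (cell i) < ⊤

variable {k : ℕ}

/-- The cells `some i` and the unbounded complement `none`. -/
def Cluster.region (Ω : Cluster k) : Option (Fin k) → Set E3
  | some i => Ω.cell i
  | none => (closure (⋃ i, Ω.cell i))ᶜ

/-- The interface between two regions. -/
def Cluster.interface (Ω : Cluster k) (i j : Option (Fin k)) : Set E3 :=
  frontier (Ω.region i) ∩ frontier (Ω.region j)

/-- The union of all interfaces. -/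
def Cluster.skeleton (Ω : Cluster k) : Set E3 :=
  {x | ∃ i j, i ≠ j ∧ x ∈ Ω.interface i j}

/-- `S` is a round sphere or a plane. -/
def IsSphereOrPlane (S : Set E3) : Prop :=
  (∃ c : E3, ∃ r : ℝ, 0 < r ∧ S = sphere c r) ∨
    (∃ n : E3, ∃ d : ℝ, n ≠ 0 ∧ S = {x | inner ℝ n x = d})

/-- Every interface is contained in a round sphere or a plane. -/
def Cluster.Spherical (Ω : Cluster k) : Prop :=
  ∀ i j, i ≠ j → ∃ S, IsSphereOrPlane S ∧ Ω.interface i j ⊆ S

/-- The model of a smooth surface point: a plane. -/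
def planeCone : Set E3 := {z | z 2 = 0}

/-- The model of a point of a triple curve: three half planes meeting at 120 degrees along
the third axis. -/
def tripleCone : Set E3 :=
  {z | ∃ s : ℝ, 0 ≤ s ∧ ∃ m : Fin 3, z 0 = s * Real.cos (2 * Real.pi * (m : ℝ) / 3) ∧
    z 1 = s * Real.sin (2 * Real.pi * (m : ℝ) / 3)}

/-- The vertices of a regular tetrahedron centred at the origin. -/
def tetraVertex : Fin 4 → E3 :=
  ![!₂[1, 1, 1], !₂[1, -1, -1], !₂[-1, 1, -1], !₂[-1, -1, 1]]

/-- The model of a quadruple point: the cone over the edges of a regular tetrahedron. -/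
def tetraCone : Set E3 :=
  {z | ∃ i j : Fin 4, ∃ s t : ℝ, 0 ≤ s ∧ 0 ≤ t ∧ z = s • tetraVertex i + t • tetraVertex j}

/-- Near `x` the set `S` is the image of the model `C` under a smooth diffeomorphism whose
derivative at `x` is an isometry. -/
def LooksLike (S C : Set E3) (x : E3) : Prop :=
  ∃ ψ : OpenPartialHomeomorph E3 E3, x ∈ ψ.source ∧ ψ x = 0 ∧
    ContDiffOn ℝ ∞ ψ ψ.source ∧ ContDiffOn ℝ ∞ ψ.symm ψ.target ∧
    (∃ L : E3 ≃ₗᵢ[ℝ] E3, HasFDerivAt ψ (L : E3 →L[ℝ] E3) x) ∧
    ∀ y ∈ ψ.source, y ∈ S ↔ ψ y ∈ C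

/-- Plateau's laws: every point of the union of the interfaces is a smooth surface point, a
point where three sheets meet at 120 degrees, or a tetrahedral point. -/
def Cluster.Plateau (Ω : Cluster k) : Prop :=
  ∀ x ∈ Ω.skeleton, LooksLike Ω.skeleton planeCone x ∨ LooksLike Ω.skeleton tripleCone x ∨
    LooksLike Ω.skeleton tetraCone x

/-- The Young-Laplace law with pressures `p`: where a piece of a sphere of radius `r`
separates the region `i` (inside) from the region `j` (outside), the pressure difference is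
the mean curvature `2 / r`; across a piece of a plane the pressures agree. -/
def Cluster.Laplace (Ω : Cluster k) (p : Option (Fin k) → ℝ) : Prop :=
  (∀ i j, ∀ x ∈ Ω.interface i j, ∀ (c : E3) (r : ℝ), 0 < r → dist x c = r →
    (∀ᶠ y in 𝓝 x, (dist y c < r → y ∈ Ω.region i) ∧ (r < dist y c → y ∈ Ω.region j)) →
    p i - p j = 2 / r) ∧
  (∀ i j, ∀ x ∈ Ω.interface i j, ∀ (n : E3) (d : ℝ), n ≠ 0 → inner ℝ n x = d →
    (∀ᶠ y in 𝓝 x, (inner ℝ n y < d → y ∈ Ω.region i) ∧ (d < inner ℝ n y → y ∈ Ω.region j)) →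
    p i = p j)

/-- A smooth one-parameter family of diffeomorphisms of space, starting at the identity, all
equal to the identity outside a fixed compact set. -/
structure Deformation where
  toFun : ℝ → E3 → E3
  ε : ℝ
  ε_pos : 0 < ε
  smooth : ContDiffOn ℝ ∞ (fun q : ℝ × E3 => toFun q.1 q.2) (Ioo (-ε) ε ×ˢ univ)
  zero : ∀ x, toFun 0 x = x
  diffeo : ∀ t ∈ Ioo (-ε) ε, ∃ g : E3 → E3, ContDiff ℝ ∞ g ∧
    Function.LeftInverse g (toFun t) ∧ Function.RightInverse g (toFun t)
  support : ∃ K : Set E3, IsCompact K ∧ ∀ t ∈ Ioo (-ε) ε, ∀ x, x ∉ K → toFun t x = x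

/-- The deformation keeps the volume of each bounded cell. -/
def Cluster.VolumePreserving (Ω : Cluster k) (Φ : Deformation) : Prop :=
  ∀ t ∈ Ioo (-Φ.ε) Φ.ε, ∀ i, volume (Φ.toFun t '' Ω.cell i) = volume (Ω.cell i)

/-- The total area of the deformed interfaces (each pair of regions is counted once;
two-dimensional Hausdorff measure). -/
def Cluster.area (Ω : Cluster k) (Φ : Deformation) (t : ℝ) : ℝ :=
  (1 / 2) * ∑ i, ∑ j, if i = j then 0 else (μH[2] (Φ.toFun t '' Ω.interface i j)).toReal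

/-- Stability: the second variation of area is nonnegative along every volume preserving
deformation (along which the area is a twice differentiable function of the parameter). -/
def Cluster.Stable (Ω : Cluster k) : Prop :=
  ∀ Φ : Deformation, Ω.VolumePreserving Φ → ContDiffAt ℝ 2 (Ω.area Φ) 0 →
    0 ≤ deriv (deriv (Ω.area Φ)) 0

/-! ## The example -/

/-- The centre of the third ball. -/
def cB : E3 := EuclideanSpace.single 0 20

/-- The two cells. -/
def cells : Fin 2 → Set E3 :=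
  ![ball 0 3 ∪ ball cB 2, ball 0 6 \ closedBall 0 3]

/-! ## Leaves -/

/-- The two-dimensional Hausdorff measure of the unit sphere is positive and finite. -/
def S_HAUS : Prop :=
  0 < (μH[2] (sphere (0 : E3) 1) : ℝ≥0∞) ∧ (μH[2] (sphere (0 : E3) 1) : ℝ≥0∞) < ⊤

/-- A set which is a sphere near `x` looks like a plane at `x`. -/
def S_LOC : Prop :=
  ∀ (c : E3) (r : ℝ), 0 < r → ∀ x ∈ sphere c r, ∀ (S U : Set E3), IsOpen U → x ∈ U →
    S ∩ U = sphere c r ∩ U → LooksLike S planeCone x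

/-- Small compactly supported smooth perturbations of the identity are diffeomorphisms. -/
def S_DIFF : Prop :=
  ∀ f : Fin 3 → E3 → E3, (∀ i, ContDiff ℝ ∞ (f i)) → (∀ i, HasCompactSupport (f i)) →
    ∃ δ : ℝ, 0 < δ ∧ ∀ a : Fin 3 → ℝ, (∀ i, |a i| < δ) →
      ∃ g : E3 → E3, ContDiff ℝ ∞ g ∧
        Function.LeftInverse g (fun x => x + ∑ i, a i • f i x) ∧
        Function.RightInverse g (fun x => x + ∑ i, a i • f i x)

/-- The image of a ball under a homeomorphism which maps the boundary sphere to a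
concentric sphere and fixes the centre and the far away points. -/
def S_BALL : Prop :=
  ∀ (Φ : E3 → E3) (c : E3) (r ρ : ℝ), 0 < r → 0 < ρ → Continuous Φ → Function.Bijective Φ →
    Φ '' sphere c r = sphere c ρ → Φ c = c →
    (∃ R : ℝ, ∀ x, R ≤ ‖x‖ → Φ x = x) → Φ '' ball c r = ball c ρ

/-- The boundaries of the three regions of the example. -/
def S_FRONT : Prop :=
  frontier (cells 0) = sphere (0 : E3) 3 ∪ sphere cB 2 ∧
  frontier (cells 1) = sphere (0 : E3) 3 ∪ sphere (0 : E3) 6 ∧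
  (closure (⋃ i, cells i))ᶜ = (closedBall (0 : E3) 6 ∪ closedBall cB 2)ᶜ ∧
  frontier ((closure (⋃ i, cells i))ᶜ) = sphere (0 : E3) 6 ∪ sphere cB 2 ∧
  sphere (0 : E3) 3 ∩ sphere (0 : E3) 6 = ∅ ∧
  sphere (0 : E3) 3 ∩ sphere cB 2 = ∅ ∧ sphere (0 : E3) 6 ∩ sphere cB 2 = ∅

/-- The area as a function of the exchanged volume: critical with negative second
derivative. -/
def S_CALC : Prop :=
  ∀ K : ℝ, 0 < K → ∀ F : ℝ → ℝ,
    (∀ᶠ t in 𝓝 (0 : ℝ), F t = K * (((27 + t) ^ (1 / 3 : ℝ)) ^ 2 + ((8 - t) ^ (1 / 3 : ℝ)) ^ 2 +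
      ((216 + t) ^ (1 / 3 : ℝ)) ^ 2)) →
    ContDiffAt ℝ 2 F 0 ∧ deriv F 0 = 0 ∧ deriv (deriv F) 0 < 0

/-- Three smooth compactly supported vector fields which move the three spheres. -/
def S_FIELD : Prop :=
  ∃ f : Fin 3 → E3 → E3, (∀ i, ContDiff ℝ ∞ (f i)) ∧ (∀ i, HasCompactSupport (f i)) ∧
    (∀ i, f i 0 = 0) ∧ (∀ i, f i cB = 0) ∧
    (∀ x ∈ sphere (0 : E3) 3, f 0 x = x ∧ f 1 x = 0 ∧ f 2 x = 0) ∧
    (∀ x ∈ sphere cB 2, f 0 x = 0 ∧ f 1 x = x - cB ∧ f 2 x = 0) ∧
    (∀ x ∈ sphere (0 : E3) 6, f 0 x = 0 ∧ f 1 x = 0 ∧ f 2 x = x)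

end Pool.Agent.N891.KS
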