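import Pool.Agent.N891.KS.Ex

open MeasureTheory Set Metric
open scoped ENNReal Topology ContDiff Pointwise

noncomputable section

namespace Pool.Agent.N891.KS

/-- Area of a sphere in terms of the area of the unit sphere. -/
lemma area_sphere (c : E3) (r : ℝ) (hr : 0 < r) :
    (μH[2] (sphere c r)).toReal = (μH[2] (sphere (0 : E3) 1)).toReal * r ^ 2 := by
  have h1 : sphere c r = (IsometryEquiv.addLeft c) '' (r • sphere (0 : E3) 1) := by
    rw [smul_sphere' hr.ne', smul_zero]
    ext x
    simp only [mem_sphere, mem_image, IsometryEquiv.addLeft_apply, Real.norm_eq_abs,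
      abs_of_pos hr, mul_one, dist_zero_right]
    constructor
    · intro hx
      exact ⟨x - c, by rw [← dist_eq_norm]; exact hx, by abel⟩
    · rintro ⟨y, hy, rfl⟩
      rw [dist_eq_norm, add_sub_cancel_left, hy]
  rw [h1, IsometryEquiv.hausdorffMeasure_image, Measure.hausdorffMeasure_smul₀ (by norm_num) hr.ne']
  rw [ENNReal.smul_def, smul_eq_mul, ENNReal.toReal_mul, mul_comm]
  congr 1
  rw [ENNReal.coe_toReal]
  have h2 : ‖r‖₊ ^ (2 : ℝ) = ‖r‖₊ ^ (2 : ℕ) := by
    rw [← NNReal.rpow_natCast]; norm_num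
  rw [h2]
  push_cast
  rw [Real.norm_eq_abs, abs_of_pos hr]

/-- Image of a sphere by a map that is a dilation on it. -/
lemma image_sphere (Φ : E3 → E3) (c : E3) (r s : ℝ) (hs : 0 < s)
    (h : ∀ x ∈ sphere c r, Φ x = c + s • (x - c)) : Φ '' sphere c r = sphere c (s * r) := by
  ext y
  constructor
  · rintro ⟨x, hx, rfl⟩
    rw [h x hx, mem_sphere, dist_eq_norm, add_sub_cancel_left, norm_smul, Real.norm_eq_abs,
      abs_of_pos hs, ← dist_eq_norm, mem_sphere.mp hx]
  · intro hy
    have hx : c + s⁻¹ • (y - c) ∈ sphere c r := by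
      rw [mem_sphere, dist_eq_norm, add_sub_cancel_left, norm_smul, Real.norm_eq_abs,
        abs_of_pos (inv_pos.mpr hs), ← dist_eq_norm, mem_sphere.mp hy]
      field_simp
    refine ⟨_, hx, ?_⟩
    rw [h _ hx, add_sub_cancel_left, smul_smul, mul_inv_cancel₀ hs.ne', one_smul]
    abel

lemma vol_ball (c : E3) (r : ℝ) (hr : 0 ≤ r) :
    volume (ball c r) = ENNReal.ofReal (r ^ 3) * volume (ball (0 : E3) 1) := by
  rw [Measure.addHaar_ball volume c hr]
  simp

end Pool.Agent.N891.KS
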