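import Pool.Agent.N891.KS.Stm

open MeasureTheory Set Metric
open scoped ENNReal Topology ContDiff

noncomputable section

namespace Pool.Agent.N891.KS

theorem t_BALL : S_BALL := by
  intro Φ c r ρ hr hρ hcont hbij hsph hc hfar
  obtain ⟨R, hR⟩ := hfar
  -- inside goes inside
  have hin : ∀ x ∈ ball c r, Φ x ∈ ball c ρ := by
    intro x hx
    by_contra hno
    rw [mem_ball, not_lt] at hno
    rw [mem_ball, dist_eq_norm] at hx
    let γ : ℝ → ℝ := fun s => dist (Φ (c + s • (x - c))) c
    have hγ : Continuous γ := by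
      apply Continuous.dist _ continuous_const
      exact hcont.comp (by fun_prop)
    have h0 : γ 0 = 0 := by simp [γ, hc]
    have h1 : ρ ≤ γ 1 := by
      simpa [γ] using hno
    have hmem : ρ ∈ Icc (γ 0) (γ 1) := ⟨by rw [h0]; exact hρ.le, h1⟩
    obtain ⟨s, hs, hsρ⟩ := intermediate_value_Icc (by norm_num : (0 : ℝ) ≤ 1)
      hγ.continuousOn hmem
    have hsp : Φ (c + s • (x - c)) ∈ Φ '' sphere c r := by
      rw [hsph]; exact hsρ
    obtain ⟨y, hy, hyx⟩ := hsp
    have := hbij.1 hyx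
    rw [this, mem_sphere, dist_eq_norm] at hy
    rw [add_sub_cancel_left, norm_smul, Real.norm_eq_abs, abs_of_nonneg hs.1] at hy
    have : s * ‖x - c‖ ≤ 1 * ‖x - c‖ := mul_le_mul_of_nonneg_right hs.2 (norm_nonneg _)
    linarith
  -- outside goes outside
  have hout : ∀ x, r < dist x c → ρ < dist (Φ x) c := by
    intro x hx
    by_contra hno
    rw [not_lt] at hno
    rw [dist_eq_norm] at hx
    have hxpos : 0 < ‖x - c‖ := lt_trans hr hx
    let γ : ℝ → ℝ := fun s => dist (Φ (c + s • (x - c))) c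
    have hγ : Continuous γ := by
      apply Continuous.dist _ continuous_const
      exact hcont.comp (by fun_prop)
    have h1 : γ 1 ≤ ρ := by
      simpa [γ] using hno
    -- a large parameter
    obtain ⟨M, hM1, hMR, hMρ⟩ : ∃ M : ℝ, 1 ≤ M ∧ R + ‖c‖ ≤ M * ‖x - c‖ ∧
        ρ ≤ M * ‖x - c‖ := by
      refine ⟨max 1 (max ((R + ‖c‖) / ‖x - c‖) (ρ / ‖x - c‖)), le_max_left _ _, ?_, ?_⟩
      · have : (R + ‖c‖) / ‖x - c‖ ≤
            max 1 (max ((R + ‖c‖) / ‖x - c‖) (ρ / ‖x - c‖)) :=
          (le_max_left _ _).trans (le_max_right _ _)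
        rwa [div_le_iff₀ hxpos] at this
      · have : ρ / ‖x - c‖ ≤
            max 1 (max ((R + ‖c‖) / ‖x - c‖) (ρ / ‖x - c‖)) :=
          (le_max_right _ _).trans (le_max_right _ _)
        rwa [div_le_iff₀ hxpos] at this
    have hMfix : Φ (c + M • (x - c)) = c + M • (x - c) := by
      apply hR
      have h2 : ‖M • (x - c)‖ ≤ ‖c + M • (x - c)‖ + ‖c‖ := by
        have := norm_sub_le (c + M • (x - c)) c
        simpa using this
      rw [norm_smul, Real.norm_eq_abs, abs_of_nonneg (by linarith)] at h2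
      linarith
    have hM : ρ ≤ γ M := by
      simp only [γ]
      rw [hMfix, dist_eq_norm, add_sub_cancel_left, norm_smul, Real.norm_eq_abs,
        abs_of_nonneg (by linarith)]
      exact hMρ
    obtain ⟨s, hs, hsρ⟩ := intermediate_value_Icc hM1 hγ.continuousOn ⟨h1, hM⟩
    have hsp : Φ (c + s • (x - c)) ∈ Φ '' sphere c r := by
      rw [hsph]; exact hsρ
    obtain ⟨y, hy, hyx⟩ := hsp
    have := hbij.1 hyx
    rw [this, mem_sphere, dist_eq_norm] at hy
    rw [add_sub_cancel_left, norm_smul, Real.norm_eq_abs,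
      abs_of_nonneg (by linarith [hs.1])] at hy
    have : 1 * ‖x - c‖ ≤ s * ‖x - c‖ := mul_le_mul_of_nonneg_right hs.1 (norm_nonneg _)
    linarith
  apply Subset.antisymm
  · rintro _ ⟨x, hx, rfl⟩
    exact hin x hx
  · intro y hy
    obtain ⟨x, rfl⟩ := hbij.2 y
    refine ⟨x, ?_, rfl⟩
    rw [mem_ball] at hy ⊢
    by_contra hno
    rw [not_lt] at hno
    rcases hno.lt_or_eq with h | h
    · exact absurd hy (not_lt.mpr (hout x h).le)
    · have : Φ x ∈ sphere c ρ := by
        rw [← hsph]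
        exact ⟨x, h.symm, rfl⟩
      rw [mem_sphere] at this
      linarith

end Pool.Agent.N891.KS
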