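import Pool.Agent.N891.KS.Area
import Pool.Agent.N891.KS.Ball

open MeasureTheory Set Metric
open scoped ENNReal Topology ContDiff Pointwise

noncomputable section

namespace Pool.Agent.N891.KS

/-- the volumes (divided by the volume of the unit ball) of the balls -/
def v0 : Fin 3 → ℝ := ![27, 8, 216]
def sg : Fin 3 → ℝ := ![1, -1, 1]

/-- the radii -/
def rad (i : Fin 3) (t : ℝ) : ℝ := (v0 i + sg i * t) ^ (1 / 3 : ℝ)

/-- the coefficients -/
def co (i : Fin 3) (t : ℝ) : ℝ := rad i t / sR i - 1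

lemma v0_eq (i : Fin 3) : v0 i = sR i ^ 3 := by fin_cases i <;> norm_num [v0, sR]

lemma base_pos (i : Fin 3) (t : ℝ) (ht : |t| < 1) : 0 < v0 i + sg i * t := by
  have := abs_lt.mp ht
  fin_cases i <;> simp [v0, sg] <;> linarith [this.1, this.2]

lemma rad_pos (i : Fin 3) (t : ℝ) (ht : |t| < 1) : 0 < rad i t :=
  Real.rpow_pos_of_pos (base_pos i t ht) _

lemma rad_cube (i : Fin 3) (t : ℝ) (ht : |t| < 1) : rad i t ^ 3 = v0 i + sg i * t := by
  unfold rad
  rw [← Real.rpow_natCast, ← Real.rpow_mul (base_pos i t ht).le]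
  norm_num

lemma rad_zero (i : Fin 3) : rad i 0 = sR i := by
  unfold rad
  rw [mul_zero, add_zero, v0_eq, ← Real.rpow_natCast, ← Real.rpow_mul (sR_pos i).le]
  norm_num

lemma co_zero (i : Fin 3) : co i 0 = 0 := by
  unfold co
  rw [rad_zero, div_self (sR_pos i).ne', sub_self]

lemma rad_smooth (i : Fin 3) (t : ℝ) (ht : |t| < 1) : ContDiffAt ℝ ∞ (rad i) t := by
  unfold rad
  apply ContDiffAt.rpow_const_of_ne
  · fun_prop
  · exact (base_pos i t ht).ne'

lemma co_smooth (i : Fin 3) (t : ℝ) (ht : |t| < 1) : ContDiffAt ℝ ∞ (co i) t := by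
  unfold co
  exact ((rad_smooth i t ht).div_const _).sub contDiffAt_const

/-- All the data of the deformation. -/
theorem exists_deformation (hf : S_FIELD) (hd : S_DIFF) :
    ∃ Φ : Deformation, Φ.ε ≤ 1 ∧ ∀ t ∈ Ioo (-Φ.ε) Φ.ε,
      Continuous (Φ.toFun t) ∧ Function.Bijective (Φ.toFun t) ∧
      (∀ m, Φ.toFun t '' sphere (sC m) (sR m) = sphere (sC m) (rad m t)) ∧
      (∀ m, Φ.toFun t (sC m) = sC m) ∧ (∃ R : ℝ, ∀ x, R ≤ ‖x‖ → Φ.toFun t x = x) := by
  obtain ⟨f, hfs, hfc, hf0, hfcB, h3, h2, h6⟩ := hf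
  obtain ⟨δ, hδ, hg⟩ := hd f hfs hfc
  -- choose ε
  have hco : ∀ i, ∀ᶠ t in 𝓝 (0 : ℝ), |co i t| < δ := by
    intro i
    have h1 : Filter.Tendsto (fun t => |co i t|) (𝓝 0) (𝓝 |co i 0|) :=
      ((co_smooth i 0 (by norm_num)).continuousAt.abs)
    rw [co_zero, abs_zero] at h1
    exact h1.eventually_lt_const hδ
  have hall : ∀ᶠ t in 𝓝 (0 : ℝ), ∀ i, |co i t| < δ := Filter.eventually_all.mpr hco
  obtain ⟨ε0, hε0, hε⟩ := Metric.eventually_nhds_iff.mp hall
  let ε := min ε0 1
  have hεpos : 0 < ε := lt_min hε0 one_pos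
  have hε1 : ∀ t ∈ Ioo (-ε) ε, |t| < 1 := fun t ht =>
    lt_of_lt_of_le (abs_lt.mpr ht) (min_le_right _ _)
  have hεδ : ∀ t ∈ Ioo (-ε) ε, ∀ i, |co i t| < δ := fun t ht => by
    apply hε
    rw [Real.dist_eq, sub_zero]
    exact lt_of_lt_of_le (abs_lt.mpr ht) (min_le_left _ _)
  let F : ℝ → E3 → E3 := fun t x => x + ∑ i, co i t • f i x
  let K : Set E3 := ⋃ i, tsupport (f i)
  have hK : IsCompact K := isCompact_iUnion (fun i => hfc i)
  have hFK : ∀ t x, x ∉ K → F t x = x := by
    intro t x hx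
    have : ∀ i, f i x = 0 := by
      intro i
      apply image_eq_zero_of_notMem_tsupport
      intro hxi
      exact hx (mem_iUnion.mpr ⟨i, hxi⟩)
    simp [F, this]
  have hsm : ContDiffOn ℝ ∞ (fun q : ℝ × E3 => F q.1 q.2) (Ioo (-ε) ε ×ˢ univ) := by
    intro q hq
    apply ContDiffAt.contDiffWithinAt
    have hq1 : |q.1| < 1 := hε1 _ hq.1
    apply ContDiffAt.add contDiffAt_snd
    apply ContDiffAt.sum
    intro i _
    have e1 : ContDiffAt ℝ ∞ (fun q : ℝ × E3 => co i q.1) q :=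
      (co_smooth i q.1 hq1).comp q contDiffAt_fst
    have e2 : ContDiffAt ℝ ∞ (fun q : ℝ × E3 => f i q.2) q :=
      (hfs i).contDiffAt.comp q contDiffAt_snd
    exact e1.smul e2
  refine ⟨⟨F, ε, hεpos, hsm, ?_, ?_, ⟨K, hK, fun t _ x hx => hFK t x hx⟩⟩, min_le_right _ _, ?_⟩
  · intro x
    simp [F, co_zero]
  · intro t ht
    exact hg (fun i => co i t) (hεδ t ht)
  · intro t ht
    have ht1 : |t| < 1 := hε1 t ht
    obtain ⟨g, -, hgl, hgr⟩ := hg (fun i => co i t) (hεδ t ht)
    refine ⟨?_, ⟨hgl.injective, hgr.surjective⟩, ?_, ?_, ?_⟩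
    · show Continuous (fun x => x + ∑ i, co i t • f i x)
      have : ∀ i, Continuous (f i) := fun i => (hfs i).continuous
      fun_prop
    · have hlin : ∀ m, ∀ x ∈ sphere (sC m) (sR m),
          F t x = sC m + (rad m t / sR m) • (x - sC m) := by
        intro m x hx
        fin_cases m
        · obtain ⟨a, b, c⟩ := h3 x hx
          simp only [F, Fin.sum_univ_three, a, b, c, co, sC, sR, Fin.zero_eta, Matrix.cons_val_zero,
            smul_zero, add_zero, sub_zero, zero_add]
          rw [sub_smul, one_smul]; abel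
        · obtain ⟨a, b, c⟩ := h2 x hx
          simp only [F, Fin.sum_univ_three, a, b, c, co, sC, sR, Fin.mk_one, Matrix.cons_val_one,
            smul_zero, add_zero, zero_add, Matrix.cons_val_zero]
          rw [sub_smul, one_smul]; abel
        · obtain ⟨a, b, c⟩ := h6 x hx
          simp only [F, Fin.sum_univ_three, a, b, c, co, sC, sR, Fin.reduceFinMk, Matrix.cons_val,
            smul_zero, add_zero, sub_zero, zero_add]
          rw [sub_smul, one_smul]; abel
      intro m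
      have := image_sphere (F t) (sC m) (sR m) (rad m t / sR m)
        (div_pos (rad_pos m t ht1) (sR_pos m)) (hlin m)
      rw [div_mul_cancel₀ _ (sR_pos m).ne'] at this
      exact this
    · intro m
      have h0 : F t 0 = 0 := by simp [F, hf0]
      have hB : F t cB = cB := by simp [F, hfcB]
      fin_cases m
      · exact h0
      · exact hB
      · exact h0
    · obtain ⟨R, hR⟩ := hK.isBounded.exists_norm_le
      refine ⟨R + 1, fun x hx => hFK t x fun hxK => ?_⟩
      have := hR x hxK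
      linarith

end Pool.Agent.N891.KS
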