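import Pool.Agent.N891.KS.Field

open MeasureTheory Set Metric
open scoped ENNReal Topology ContDiff

noncomputable section

namespace Pool.Agent.N891.KS

lemma dist_cB_zero : dist cB (0 : E3) = 20 := by rw [dist_zero_right, norm_cB]

lemma disj_balls : Disjoint (ball (0 : E3) 6) (ball cB 2) := by
  rw [Set.disjoint_left]
  intro x hx hx2
  rw [mem_ball] at hx hx2
  have h1 : dist cB (0 : E3) ≤ dist cB x + dist x 0 := dist_triangle _ _ _
  rw [dist_comm cB x, dist_cB_zero] at h1
  linarith

/-- The example cluster. -/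
def Om : Cluster 2 where
  cell := cells
  isOpen_cell := by
    intro i
    fin_cases i
    · exact isOpen_ball.union isOpen_ball
    · exact isOpen_ball.sdiff isClosed_closedBall
  disjoint_cell := by
    have h : Disjoint (cells 0) (cells 1) := by
      rw [Set.disjoint_left]
      rintro x (hx | hx) ⟨hx2, hx3⟩
      · exact hx3 (ball_subset_closedBall hx)
      · exact Set.disjoint_left.mp disj_balls hx2 hx
    intro i j hij
    fin_cases i <;> fin_cases j
    · exact absurd rfl hij
    · exact h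
    · exact h.symm
    · exact absurd rfl hij
  volume_pos := by
    intro i
    fin_cases i
    · exact (isOpen_ball.union isOpen_ball).measure_pos _
        ⟨0, Or.inl (mem_ball_self (by norm_num))⟩
    · refine (isOpen_ball.sdiff isClosed_closedBall).measure_pos _
        ⟨EuclideanSpace.single 0 4, ?_, ?_⟩
      · rw [mem_ball, dist_zero_right]; simp; norm_num
      · rw [mem_closedBall, dist_zero_right]; simp; norm_num
  volume_lt_top := by
    intro i
    fin_cases i
    · exact lt_of_le_of_lt (measure_union_le _ _)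
        (ENNReal.add_lt_top.mpr ⟨measure_ball_lt_top, measure_ball_lt_top⟩)
    · exact lt_of_le_of_lt (measure_mono diff_subset) measure_ball_lt_top

lemma fr0 (h : S_FRONT) : frontier (Om.region (some 0)) = sphere (0 : E3) 3 ∪ sphere cB 2 := h.1
lemma fr1 (h : S_FRONT) :
    frontier (Om.region (some 1)) = sphere (0 : E3) 3 ∪ sphere (0 : E3) 6 := h.2.1
lemma frn (h : S_FRONT) : frontier (Om.region none) = sphere (0 : E3) 6 ∪ sphere cB 2 :=
  h.2.2.2.1

lemma if01 (h : S_FRONT) : Om.interface (some 0) (some 1) = sphere (0 : E3) 3 := by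
  obtain ⟨-, -, -, -, h1, h2, h3⟩ := id h
  unfold Cluster.interface
  rw [fr0 h, fr1 h]
  ext x
  simp only [mem_inter_iff, mem_union]
  constructor
  · rintro ⟨a | a, b | b⟩
    · exact a
    · exact a
    · exact b
    · exact absurd (show x ∈ sphere (0 : E3) 6 ∩ sphere cB 2 from ⟨b, a⟩) (by rw [h3]; simp)
  · intro a
    exact ⟨Or.inl a, Or.inl a⟩

lemma if0n (h : S_FRONT) : Om.interface (some 0) none = sphere cB 2 := by
  obtain ⟨-, -, -, -, h1, h2, h3⟩ := id h
  unfold Cluster.interface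
  rw [fr0 h, frn h]
  ext x
  simp only [mem_inter_iff, mem_union]
  constructor
  · rintro ⟨a | a, b | b⟩
    · exact absurd (show x ∈ sphere (0 : E3) 3 ∩ sphere (0 : E3) 6 from ⟨a, b⟩) (by rw [h1]; simp)
    · exact b
    · exact a
    · exact a
  · intro a
    exact ⟨Or.inr a, Or.inr a⟩

lemma if1n (h : S_FRONT) : Om.interface (some 1) none = sphere (0 : E3) 6 := by
  obtain ⟨-, -, -, -, h1, h2, h3⟩ := id h
  unfold Cluster.interface
  rw [fr1 h, frn h]
  ext x
  simp only [mem_inter_iff, mem_union]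
  constructor
  · rintro ⟨a | a, b | b⟩
    · exact b
    · exact absurd (show x ∈ sphere (0 : E3) 3 ∩ sphere cB 2 from ⟨a, b⟩) (by rw [h2]; simp)
    · exact a
    · exact a
  · intro a
    exact ⟨Or.inr a, Or.inl a⟩

lemma if_symm {k : ℕ} (Ω : Cluster k) (i j : Option (Fin k)) :
    Ω.interface i j = Ω.interface j i := inter_comm _ _

/-- the three spheres -/
def sC : Fin 3 → E3 := ![0, cB, 0]
def sR : Fin 3 → ℝ := ![3, 2, 6]

lemma sR_pos (m : Fin 3) : 0 < sR m := by fin_cases m <;> norm_num [sR]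

lemma interface_cases (h : S_FRONT) (i j : Option (Fin 2)) (hij : i ≠ j) :
    ∃ m, Om.interface i j = sphere (sC m) (sR m) := by
  match i, j, hij with
  | none, none, hij => exact absurd rfl hij
  | none, some 0, _ => exact ⟨1, by rw [if_symm, if0n h]; rfl⟩
  | none, some 1, _ => exact ⟨2, by rw [if_symm, if1n h]; rfl⟩
  | some 0, none, _ => exact ⟨1, by rw [if0n h]; rfl⟩
  | some 1, none, _ => exact ⟨2, by rw [if1n h]; rfl⟩
  | some 0, some 0, hij => exact absurd rfl hij
  | some 0, some 1, _ => exact ⟨0, by rw [if01 h]; rfl⟩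
  | some 1, some 0, _ => exact ⟨0, by rw [if_symm, if01 h]; rfl⟩
  | some 1, some 1, hij => exact absurd rfl hij

lemma skeleton_eq (h : S_FRONT) : Om.skeleton = {x | ∃ m, x ∈ sphere (sC m) (sR m)} := by
  ext x
  constructor
  · rintro ⟨i, j, hij, hx⟩
    obtain ⟨m, hm⟩ := interface_cases h i j hij
    exact ⟨m, hm ▸ hx⟩
  · rintro ⟨m, hm⟩
    fin_cases m
    · exact ⟨some 0, some 1, by decide, by rw [if01 h]; exact hm⟩
    · exact ⟨some 0, none, by decide, by rw [if0n h]; exact hm⟩
    · exact ⟨some 1, none, by decide, by rw [if1n h]; exact hm⟩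

lemma spheres_disjoint (h : S_FRONT) (m n : Fin 3) (hmn : m ≠ n) (x : E3)
    (hm : x ∈ sphere (sC m) (sR m)) (hn : x ∈ sphere (sC n) (sR n)) : False := by
  obtain ⟨-, -, -, -, h1, h2, h3⟩ := id h
  have key : ∀ A B : Set E3, A ∩ B = ∅ → x ∈ A → x ∈ B → False := by
    intro A B hAB ha hb
    have : x ∈ A ∩ B := ⟨ha, hb⟩
    rw [hAB] at this
    exact this
  fin_cases m <;> fin_cases n
  · exact hmn rfl
  · exact key _ _ h2 hm hn
  · exact key _ _ h1 hm hn
  · exact key _ _ h2 hn hm
  · exact hmn rfl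
  · exact key _ _ h3 hn hm
  · exact key _ _ h1 hn hm
  · exact key _ _ h3 hm hn
  · exact hmn rfl

theorem Om_spherical (h : S_FRONT) : Om.Spherical := by
  intro i j hij
  obtain ⟨m, hm⟩ := interface_cases h i j hij
  exact ⟨sphere (sC m) (sR m), Or.inl ⟨_, _, sR_pos m, rfl⟩, hm.le⟩

theorem Om_plateau (h : S_FRONT) (hl : S_LOC) : Om.Plateau := by
  intro x hx
  left
  rw [skeleton_eq h] at hx ⊢
  obtain ⟨m, hm⟩ := hx
  let V : Set E3 := ⋃ n ∈ ({n | n ≠ m} : Set (Fin 3)), sphere (sC n) (sR n)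
  have hV : IsClosed V := by
    apply Set.Finite.isClosed_biUnion (Set.toFinite _)
    intro n _
    exact isClosed_sphere
  refine hl (sC m) (sR m) (sR_pos m) x hm _ Vᶜ hV.isOpen_compl ?_ ?_
  · intro hxV
    simp only [V, mem_iUnion] at hxV
    obtain ⟨n, hn, hxn⟩ := hxV
    exact spheres_disjoint h n m hn x hxn hm
  · ext y
    constructor
    · rintro ⟨⟨n, hn⟩, hyV⟩
      by_cases hnm : n = m
      · subst hnm; exact ⟨hn, hyV⟩
      · exact absurd (show y ∈ V by simp only [V, mem_iUnion]; exact ⟨n, hnm, hn⟩) hyV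
    · rintro ⟨hy, hyV⟩
      exact ⟨⟨m, hy⟩, hyV⟩

end Pool.Agent.N891.KS
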