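import Pool.Agent.N891.KS.Stm

open MeasureTheory Set Metric
open scoped ENNReal Topology ContDiff

noncomputable section

namespace Pool.Agent.N891.KS

lemma norm_cB : ‖cB‖ = 20 := by
  simp [cB]

/-- bump functions -/
def b1 : ContDiffBump (0 : E3) := ⟨7/2, 4, by norm_num, by norm_num⟩
def b2 : ContDiffBump (0 : E3) := ⟨13/2, 7, by norm_num, by norm_num⟩
def b3 : ContDiffBump (0 : E3) := ⟨9/2, 5, by norm_num, by norm_num⟩
def b4 : ContDiffBump cB := ⟨5/2, 3, by norm_num, by norm_num⟩

theorem t_FIELD : S_FIELD := by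
  have hd : ∀ x : E3, dist x cB = 2 → 18 ≤ dist x 0 := by
    intro x hx
    have h1 : dist cB (0 : E3) ≤ dist cB x + dist x 0 := dist_triangle _ _ _
    rw [dist_comm cB x, hx, dist_zero_right, norm_cB] at h1
    linarith
  have hd2 : ∀ x : E3, dist x 0 ≤ 6 → 14 ≤ dist x cB := by
    intro x hx
    have h1 : dist cB (0 : E3) ≤ dist cB x + dist x 0 := dist_triangle _ _ _
    rw [dist_comm cB x, dist_zero_right cB, norm_cB] at h1
    linarith
  have hcB0 : dist cB (0 : E3) = 20 := by rw [dist_zero_right, norm_cB]
  have h0cB : dist (0 : E3) cB = 20 := by rw [dist_comm, hcB0]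
  refine ⟨![fun x => b1 x • x, fun x => b4 x • (x - cB), fun x => (b2 x - b3 x) • x],
    ?_, ?_, ?_, ?_, ?_, ?_, ?_⟩
  · intro i
    fin_cases i
    · exact b1.contDiff.smul contDiff_id
    · exact b4.contDiff.smul (contDiff_id.sub contDiff_const)
    · exact (b2.contDiff.sub b3.contDiff).smul contDiff_id
  · intro i
    fin_cases i
    · exact b1.hasCompactSupport.smul_right
    · exact b4.hasCompactSupport.smul_right
    · exact (b2.hasCompactSupport.sub b3.hasCompactSupport).smul_right
  · intro i
    fin_cases i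
    · simp
    · have : b4 (0 : E3) = 0 := b4.zero_of_le_dist (by rw [h0cB]; norm_num [b4])
      simp [this]
    · simp
  · intro i
    fin_cases i
    · have : b1 cB = 0 := b1.zero_of_le_dist (by rw [hcB0]; norm_num [b1])
      simp [this]
    · simp
    · have h2 : b2 cB = 0 := b2.zero_of_le_dist (by rw [hcB0]; norm_num [b2])
      have h3 : b3 cB = 0 := b3.zero_of_le_dist (by rw [hcB0]; norm_num [b3])
      simp [h2, h3]
  · intro x hx
    rw [mem_sphere] at hx
    have h1 : b1 x = 1 := b1.one_of_mem_closedBall (by rw [mem_closedBall, hx]; norm_num [b1])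
    have h2 : b2 x = 1 := b2.one_of_mem_closedBall (by rw [mem_closedBall, hx]; norm_num [b2])
    have h3 : b3 x = 1 := b3.one_of_mem_closedBall (by rw [mem_closedBall, hx]; norm_num [b3])
    have h4 : b4 x = 0 := b4.zero_of_le_dist (by
      have := hd2 x (by rw [hx]; norm_num)
      have : b4.rOut = 3 := rfl
      linarith)
    simp [h1, h2, h3, h4]
  · intro x hx
    rw [mem_sphere] at hx
    have h18 := hd x hx
    have h1 : b1 x = 0 := b1.zero_of_le_dist (by
      have : b1.rOut = 4 := rfl
      linarith)
    have h2 : b2 x = 0 := b2.zero_of_le_dist (by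
      have : b2.rOut = 7 := rfl
      linarith)
    have h3 : b3 x = 0 := b3.zero_of_le_dist (by
      have : b3.rOut = 5 := rfl
      linarith)
    have h4 : b4 x = 1 := b4.one_of_mem_closedBall (by rw [mem_closedBall, hx]; norm_num [b4])
    simp [h1, h2, h3, h4]
  · intro x hx
    rw [mem_sphere] at hx
    have h1 : b1 x = 0 := b1.zero_of_le_dist (by
      have : b1.rOut = 4 := rfl
      linarith)
    have h2 : b2 x = 1 := b2.one_of_mem_closedBall (by rw [mem_closedBall, hx]; norm_num [b2])
    have h3 : b3 x = 0 := b3.zero_of_le_dist (by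
      have : b3.rOut = 5 := rfl
      linarith)
    have h4 : b4 x = 0 := b4.zero_of_le_dist (by
      have := hd2 x (by rw [hx])
      have : b4.rOut = 3 := rfl
      linarith)
    simp [h1, h2, h3, h4]

end Pool.Agent.N891.KS
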