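import Pool.Agent.N891.KS.Defo

open MeasureTheory Set Metric
open scoped ENNReal Topology ContDiff Pointwise

noncomputable section

namespace Pool.Agent.N891.KS

lemma ball_images (hb : S_BALL) (Φ : E3 → E3) (t : ℝ) (ht : |t| < 1)
    (hcont : Continuous Φ) (hbij : Function.Bijective Φ)
    (hsph : ∀ m, Φ '' sphere (sC m) (sR m) = sphere (sC m) (rad m t))
    (hc : ∀ m, Φ (sC m) = sC m) (hfar : ∃ R : ℝ, ∀ x, R ≤ ‖x‖ → Φ x = x) (m : Fin 3) :
    Φ '' ball (sC m) (sR m) = ball (sC m) (rad m t) :=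
  hb Φ (sC m) (sR m) (rad m t) (sR_pos m) (rad_pos m t ht) hcont hbij (hsph m) (hc m) hfar

lemma vol_image (m : Fin 3) (t : ℝ) (ht : |t| < 1) :
    volume (ball (sC m) (rad m t)) =
      ENNReal.ofReal (v0 m + sg m * t) * volume (ball (0 : E3) 1) := by
  rw [vol_ball _ _ (rad_pos m t ht).le, rad_cube m t ht]

lemma vol_preserving (hb : S_BALL) (Φ : E3 → E3) (t : ℝ) (ht : |t| < 1)
    (hcont : Continuous Φ) (hbij : Function.Bijective Φ)
    (hsph : ∀ m, Φ '' sphere (sC m) (sR m) = sphere (sC m) (rad m t))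
    (hc : ∀ m, Φ (sC m) = sC m) (hfar : ∃ R : ℝ, ∀ x, R ≤ ‖x‖ → Φ x = x) (i : Fin 2) :
    volume (Φ '' cells i) = volume (cells i) := by
  have hball := ball_images hb Φ t ht hcont hbij hsph hc hfar
  have hV : volume (ball (0 : E3) 1) ≠ ⊤ := measure_ball_lt_top.ne
  have ht' := abs_lt.mp ht
  have id0 : ∀ m, volume (ball (sC m) (sR m)) =
      ENNReal.ofReal (v0 m) * volume (ball (0 : E3) 1) := by
    intro m
    rw [vol_ball _ _ (sR_pos m).le, v0_eq]
  have hd01 : Disjoint (ball (0 : E3) 3) (ball cB 2) :=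
    disj_balls.mono_left (ball_subset_ball (by norm_num))
  have e0 : volume (ball (0 : E3) 3) = ENNReal.ofReal 27 * volume (ball (0 : E3) 1) := id0 0
  have e1 : volume (ball cB 2) = ENNReal.ofReal 8 * volume (ball (0 : E3) 1) := id0 1
  have e2 : volume (ball (0 : E3) 6) = ENNReal.ofReal 216 * volume (ball (0 : E3) 1) := id0 2
  have f0 : volume (Φ '' ball (0 : E3) 3) =
      ENNReal.ofReal (27 + t) * volume (ball (0 : E3) 1) := by
    have h := hball 0
    have h' := vol_image 0 t ht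
    simp only [sC, sR, v0, sg, Matrix.cons_val_zero, one_mul] at h h'
    rw [h, h']
  have f1 : volume (Φ '' ball cB 2) =
      ENNReal.ofReal (8 - t) * volume (ball (0 : E3) 1) := by
    have h := hball 1
    have h' := vol_image 1 t ht
    simp only [sC, sR, v0, sg, Matrix.cons_val_one, Matrix.cons_val_zero] at h h'
    rw [h, h']
    congr 2; ring
  have f2 : volume (Φ '' ball (0 : E3) 6) =
      ENNReal.ofReal (216 + t) * volume (ball (0 : E3) 1) := by
    have h := hball 2
    have h' := vol_image 2 t ht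
    simp only [sC, sR, v0, sg, Matrix.cons_val, one_mul] at h h'
    rw [h, h']
  fin_cases i
  · show volume (Φ '' (ball (0 : E3) 3 ∪ ball cB 2)) = volume (ball (0 : E3) 3 ∪ ball cB 2)
    have hdim : Disjoint (Φ '' ball (0 : E3) 3) (Φ '' ball cB 2) :=
      (disjoint_image_iff hbij.1).mpr hd01
    have hm : MeasurableSet (Φ '' ball cB 2) := by
      have h := hball 1
      simp only [sC, sR, Matrix.cons_val_one, Matrix.cons_val_zero] at h
      rw [h]; exact measurableSet_ball
    rw [image_union, measure_union hdim hm, measure_union hd01 measurableSet_ball, f0, f1, e0, e1,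
      ← add_mul, ← add_mul, ← ENNReal.ofReal_add (by linarith) (by linarith),
      ← ENNReal.ofReal_add (by norm_num) (by norm_num)]
    congr 2; ring
  · show volume (Φ '' (ball (0 : E3) 6 \ closedBall (0 : E3) 3)) =
      volume (ball (0 : E3) 6 \ closedBall (0 : E3) 3)
    have hcb : volume (closedBall (0 : E3) 3) = volume (ball (0 : E3) 3) :=
      Measure.addHaar_closedBall_eq_addHaar_ball volume _ _
    have hcbi : Φ '' closedBall (0 : E3) 3 = closedBall (0 : E3) (rad 0 t) := by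
      have h := hball 0
      have h' := hsph 0
      simp only [sC, sR, Matrix.cons_val_zero] at h h'
      rw [← ball_union_sphere, image_union, h, h', ball_union_sphere]
    have hvi : volume (closedBall (0 : E3) (rad 0 t)) =
        ENNReal.ofReal (27 + t) * volume (ball (0 : E3) 1) := by
      rw [Measure.addHaar_closedBall_eq_addHaar_ball volume _ _]
      have h' := vol_image 0 t ht
      simp only [sC, v0, sg, Matrix.cons_val_zero, one_mul] at h'
      exact h'
    rw [image_sdiff hbij.1, hcbi,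
      measure_sdiff (by rw [← hcbi]; exact image_mono (closedBall_subset_ball (by norm_num)))
        measurableSet_closedBall.nullMeasurableSet measure_closedBall_lt_top.ne,
      measure_sdiff (closedBall_subset_ball (by norm_num))
        measurableSet_closedBall.nullMeasurableSet measure_closedBall_lt_top.ne,
      hcb, hvi, f2, e0, e2, ← ENNReal.sub_mul (fun _ _ => hV), ← ENNReal.sub_mul (fun _ _ => hV),
      ← ENNReal.ofReal_sub _ (by linarith), ← ENNReal.ofReal_sub _ (by norm_num)]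
    congr 2; ring

/-- The area along the deformation. -/
lemma area_eq (h : S_FRONT) (Φ : Deformation) (t : ℝ) (ht : |t| < 1)
    (hsph : ∀ m, Φ.toFun t '' sphere (sC m) (sR m) = sphere (sC m) (rad m t)) :
    Om.area Φ t = (μH[2] (sphere (0 : E3) 1)).toReal *
      (((27 + t) ^ (1 / 3 : ℝ)) ^ 2 + ((8 - t) ^ (1 / 3 : ℝ)) ^ 2 +
      ((216 + t) ^ (1 / 3 : ℝ)) ^ 2) := by
  have a0 : (μH[2] (Φ.toFun t '' sphere (0 : E3) 3)).toReal =
      (μH[2] (sphere (0 : E3) 1)).toReal * ((27 + t) ^ (1 / 3 : ℝ)) ^ 2 := by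
    have h1 := hsph 0
    have h2 := area_sphere (sC 0) (rad 0 t) (rad_pos 0 t ht)
    rw [← h1] at h2
    simpa [sC, sR, rad, v0, sg] using h2
  have a1 : (μH[2] (Φ.toFun t '' sphere cB 2)).toReal =
      (μH[2] (sphere (0 : E3) 1)).toReal * ((8 - t) ^ (1 / 3 : ℝ)) ^ 2 := by
    have h1 := hsph 1
    have h2 := area_sphere (sC 1) (rad 1 t) (rad_pos 1 t ht)
    rw [← h1] at h2
    simpa [sC, sR, rad, v0, sg, sub_eq_add_neg] using h2
  have a2 : (μH[2] (Φ.toFun t '' sphere (0 : E3) 6)).toReal =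
      (μH[2] (sphere (0 : E3) 1)).toReal * ((216 + t) ^ (1 / 3 : ℝ)) ^ 2 := by
    have h1 := hsph 2
    have h2 := area_sphere (sC 2) (rad 2 t) (rad_pos 2 t ht)
    rw [← h1] at h2
    simpa [sC, sR, rad, v0, sg] using h2
  unfold Cluster.area
  rw [Fintype.sum_option]
  simp only [Fintype.sum_option, Fin.sum_univ_two]
  have n1 : ¬ ((none : Option (Fin 2)) = some 0) := by decide
  have n2 : ¬ ((none : Option (Fin 2)) = some 1) := by decide
  have n3 : ¬ ((some 0 : Option (Fin 2)) = none) := by decide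
  have n4 : ¬ ((some 1 : Option (Fin 2)) = none) := by decide
  have n5 : ¬ ((some 0 : Option (Fin 2)) = some 1) := by decide
  have n6 : ¬ ((some 1 : Option (Fin 2)) = some 0) := by decide
  simp only [if_true]
  rw [if_neg n1, if_neg n2, if_neg n3, if_neg n5, if_neg n4, if_neg n6, if_symm Om none (some 0), if_symm Om none (some 1), if_symm Om (some 1) (some 0),
    if01 h, if0n h, if1n h, a0, a1, a2]
  ring

theorem Om_unstable (h : S_FRONT) (hf : S_FIELD) (hd : S_DIFF) (hb : S_BALL) (hH : S_HAUS)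
    (hcalc : S_CALC) :
    ∃ Φ : Deformation, Om.VolumePreserving Φ ∧ ContDiffAt ℝ 2 (Om.area Φ) 0 ∧
      deriv (Om.area Φ) 0 = 0 ∧ deriv (deriv (Om.area Φ)) 0 < 0 := by
  obtain ⟨Φ, hε, hΦ⟩ := exists_deformation hf hd
  have ht1 : ∀ t ∈ Ioo (-Φ.ε) Φ.ε, |t| < 1 := fun t ht => lt_of_lt_of_le (abs_lt.mpr ht) hε
  refine ⟨Φ, ?_, ?_⟩
  · intro t ht i
    obtain ⟨hcont, hbij, hsph, hc, hfar⟩ := hΦ t ht
    exact vol_preserving hb _ t (ht1 t ht) hcont hbij hsph hc hfar i
  · apply hcalc (μH[2] (sphere (0 : E3) 1)).toReal (ENNReal.toReal_pos hH.1.ne' hH.2.ne)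
    have : Ioo (-Φ.ε) Φ.ε ∈ 𝓝 (0 : ℝ) := Ioo_mem_nhds (by linarith [Φ.ε_pos]) Φ.ε_pos
    filter_upwards [this] with t ht
    obtain ⟨hcont, hbij, hsph, hc, hfar⟩ := hΦ t ht
    exact area_eq h Φ t (ht1 t ht) hsph

end Pool.Agent.N891.KS
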