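import Pool.Agent.N891.KS.Lin

open MeasureTheory Set Metric
open scoped ENNReal Topology ContDiff Pointwise

noncomputable section

namespace Pool.Agent.N891.KS

/-- the pressures -/
def pr : Option (Fin 2) → ℝ
  | none => 0
  | some 0 => 1
  | some 1 => 1 / 3

def inR : Fin 3 → Option (Fin 2) := ![some 0, some 0, some 1]
def outR : Fin 3 → Option (Fin 2) := ![some 1, none, none]

lemma pr_eq (m : Fin 3) : pr (inR m) - pr (outR m) = 2 / sR m := by
  fin_cases m <;> norm_num [pr, inR, outR, sR]

lemma region_none (h : S_FRONT) :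
    Om.region none = (closedBall (0 : E3) 6 ∪ closedBall cB 2)ᶜ := h.2.2.1

lemma dist_sum (y : E3) : 20 ≤ dist y cB + dist y 0 := by
  have h1 : dist cB (0 : E3) ≤ dist cB y + dist y 0 := dist_triangle _ _ _
  rw [dist_comm cB y, dist_cB_zero] at h1
  exact h1

lemma near_sphere (h : S_FRONT) (m : Fin 3) (x : E3) (hx : x ∈ sphere (sC m) (sR m)) :
    ∀ᶠ y in 𝓝 x, (dist y (sC m) < sR m → y ∈ Om.region (inR m)) ∧
      (sR m < dist y (sC m) → y ∈ Om.region (outR m)) ∧
      (dist y (sC m) = sR m → ∀ i, y ∉ Om.region i) := by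
  have hr0 : Om.region (some 0) = ball 0 3 ∪ ball cB 2 := rfl
  have hr1 : Om.region (some 1) = ball 0 6 \ closedBall 0 3 := rfl
  have hrn := region_none h
  rw [Metric.eventually_nhds_iff]
  refine ⟨1, one_pos, fun y hy => ?_⟩
  have hs := dist_sum y
  fin_cases m
  · have hx' : dist x (0 : E3) = 3 := hx
    have u1 : dist y (0 : E3) ≤ dist y x + dist x 0 := dist_triangle _ _ _
    have u2 : dist x (0 : E3) ≤ dist x y + dist y 0 := dist_triangle _ _ _
    rw [dist_comm x y] at u2
    show (dist y (0 : E3) < 3 → y ∈ Om.region (some 0)) ∧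
      (3 < dist y (0 : E3) → y ∈ Om.region (some 1)) ∧
      (dist y (0 : E3) = 3 → ∀ i, y ∉ Om.region i)
    refine ⟨fun h1 => ?_, fun h1 => ?_, fun h1 i => ?_⟩
    · rw [hr0]; exact Or.inl h1
    · rw [hr1]
      refine ⟨?_, ?_⟩
      · rw [mem_ball]; linarith
      · rw [mem_closedBall, not_le]; exact h1
    · match i with
      | none =>
        rw [hrn]
        simp only [mem_compl_iff, mem_union, mem_closedBall, not_or, not_and, not_not]
        intro hc; exact absurd (by linarith) hc
      | some 0 =>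
        rw [hr0]
        rintro (h2 | h2)
        · rw [mem_ball] at h2; linarith
        · rw [mem_ball] at h2; linarith
      | some 1 =>
        rw [hr1]
        rintro ⟨h2, h3⟩
        exact h3 (by rw [mem_closedBall]; linarith)
  · have hx' : dist x cB = 2 := hx
    have u1 : dist y cB ≤ dist y x + dist x cB := dist_triangle _ _ _
    show (dist y cB < 2 → y ∈ Om.region (some 0)) ∧
      (2 < dist y cB → y ∈ Om.region none) ∧ (dist y cB = 2 → ∀ i, y ∉ Om.region i)
    refine ⟨fun h1 => ?_, fun h1 => ?_, fun h1 i => ?_⟩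
    · rw [hr0]; exact Or.inr h1
    · rw [hrn]
      simp only [mem_compl_iff, mem_union, mem_closedBall, not_or, not_le]
      exact ⟨by linarith, h1⟩
    · match i with
      | none =>
        rw [hrn]
        simp only [mem_compl_iff, mem_union, mem_closedBall, not_or, not_and, not_not]
        intro _; linarith
      | some 0 =>
        rw [hr0]
        rintro (h2 | h2)
        · rw [mem_ball] at h2; linarith
        · rw [mem_ball] at h2; linarith
      | some 1 =>
        rw [hr1]
        rintro ⟨h2, h3⟩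
        rw [mem_ball] at h2; linarith
  · have hx' : dist x (0 : E3) = 6 := hx
    have u1 : dist y (0 : E3) ≤ dist y x + dist x 0 := dist_triangle _ _ _
    have u2 : dist x (0 : E3) ≤ dist x y + dist y 0 := dist_triangle _ _ _
    rw [dist_comm x y] at u2
    show (dist y (0 : E3) < 6 → y ∈ Om.region (some 1)) ∧
      (6 < dist y (0 : E3) → y ∈ Om.region none) ∧
      (dist y (0 : E3) = 6 → ∀ i, y ∉ Om.region i)
    refine ⟨fun h1 => ?_, fun h1 => ?_, fun h1 i => ?_⟩
    · rw [hr1]
      refine ⟨h1, ?_⟩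
      rw [mem_closedBall, not_le]; linarith
    · rw [hrn]
      simp only [mem_compl_iff, mem_union, mem_closedBall, not_or, not_le]
      exact ⟨h1, by linarith⟩
    · match i with
      | none =>
        rw [hrn]
        simp only [mem_compl_iff, mem_union, mem_closedBall, not_or, not_and, not_not]
        intro hc; exact absurd (by linarith) hc
      | some 0 =>
        rw [hr0]
        rintro (h2 | h2)
        · rw [mem_ball] at h2; linarith
        · rw [mem_ball] at h2; linarith
      | some 1 =>
        rw [hr1]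
        rintro ⟨h2, h3⟩
        rw [mem_ball] at h2; linarith

lemma regions_disjoint {k : ℕ} (Ω : Cluster k) (i j : Option (Fin k)) (y : E3)
    (hi : y ∈ Ω.region i) (hj : y ∈ Ω.region j) : i = j := by
  match i, j, hi, hj with
  | none, none, _, _ => rfl
  | none, some j, hi, hj => exact absurd (subset_closure (mem_iUnion.mpr ⟨j, hj⟩)) hi
  | some i, none, hi, hj => exact absurd (subset_closure (mem_iUnion.mpr ⟨i, hi⟩)) hj
  | some i, some j, hi, hj =>
    by_contra hne
    exact Set.disjoint_left.mp (Ω.disjoint_cell i j (fun h => hne (by rw [h]))) hi hj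

lemma interface_sphere (h : S_FRONT) (i j : Option (Fin 2)) (x : E3)
    (hx : x ∈ Om.interface i j) : ∃ m, x ∈ sphere (sC m) (sR m) := by
  have hx1 := hx.1
  match i with
  | none =>
    rw [frn h] at hx1
    rcases hx1 with h1 | h1
    · exact ⟨2, h1⟩
    · exact ⟨1, h1⟩
  | some 0 =>
    rw [fr0 h] at hx1
    rcases hx1 with h1 | h1
    · exact ⟨0, h1⟩
    · exact ⟨1, h1⟩
  | some 1 =>
    rw [fr1 h] at hx1
    rcases hx1 with h1 | h1
    · exact ⟨0, h1⟩
    · exact ⟨2, h1⟩

/-- points near `x` on the ray from the centre -/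
lemma ray_point (s x : E3) (R : ℝ) (hR : 0 < R) (hx : x ∈ sphere s R) (P : E3 → Prop)
    (hP : ∀ᶠ y in 𝓝 x, P y) : (∃ y, P y ∧ dist y s < R) ∧ (∃ y, P y ∧ R < dist y s) := by
  let γ : ℝ → E3 := fun τ => s + (1 + τ) • (x - s)
  have hγ : Continuous γ := by fun_prop
  have hγ0 : γ 0 = x := by simp [γ]
  have hev : ∀ᶠ τ in 𝓝 (0 : ℝ), P (γ τ) := by
    have := hγ.continuousAt (x := 0)
    rw [ContinuousAt, hγ0] at this
    exact this.eventually hP
  obtain ⟨ε, hε, hball⟩ := Metric.eventually_nhds_iff.mp hev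
  set τ : ℝ := min (ε / 2) (1 / 2) with hτ
  have hτpos : 0 < τ := lt_min (by linarith) (by norm_num)
  have hτε : τ < ε := lt_of_le_of_lt (min_le_left _ _) (by linarith)
  have hτ1 : τ ≤ 1 / 2 := min_le_right _ _
  have hnx : ‖x - s‖ = R := by rw [← dist_eq_norm]; exact hx
  have hd : ∀ a : ℝ, 0 ≤ 1 + a → dist (γ a) s = (1 + a) * R := by
    intro a ha
    simp only [γ]
    rw [dist_eq_norm, add_sub_cancel_left, norm_smul, Real.norm_eq_abs, abs_of_nonneg ha, hnx]
  constructor
  · refine ⟨γ (-τ), hball (by rw [Real.dist_eq, sub_zero, abs_neg, abs_of_pos hτpos]; exact hτε), ?_⟩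
    rw [hd _ (by linarith)]
    nlinarith
  · refine ⟨γ τ, hball (by rw [Real.dist_eq, sub_zero, abs_of_pos hτpos]; exact hτε), ?_⟩
    rw [hd _ (by linarith)]
    nlinarith

theorem Om_laplace (h : S_FRONT) : Om.Laplace pr := by
  constructor
  · intro i j x hx c r hr hxc hev
    obtain ⟨m, hm⟩ := interface_sphere h i j x hx
    have hns := near_sphere h m x hm
    have hw : sC m - c = 0 := by
      apply lin_const (sC m) (sR m) (sR_pos m) x hm
      filter_upwards [hns, hev] with y hy1 hy2 hy
      have hno := hy1.2.2 hy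
      have hyr : dist y c = r := by
        rcases lt_trichotomy (dist y c) r with h1 | h1 | h1
        · exact absurd (hy2.1 h1) (hno i)
        · exact h1
        · exact absurd (hy2.2 h1) (hno j)
      have q1 : ‖y - c‖ ^ 2 = ‖x - c‖ ^ 2 := by
        rw [← dist_eq_norm, ← dist_eq_norm, hyr, hxc]
      have q2 : ‖y - sC m‖ ^ 2 = ‖x - sC m‖ ^ 2 := by
        rw [← dist_eq_norm, ← dist_eq_norm, mem_sphere.mp hy, mem_sphere.mp hm]
      rw [norm_sub_sq_real, norm_sub_sq_real] at q1 q2
      rw [inner_sub_left, inner_sub_left, real_inner_comm y, real_inner_comm y,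
        real_inner_comm x, real_inner_comm x]
      linarith
    have hcs : c = sC m := (sub_eq_zero.mp hw).symm
    have hrs : r = sR m := by rw [← hxc, hcs]; exact hm
    obtain ⟨⟨y, ⟨hy1, hy2⟩, hy3⟩, ⟨z, ⟨hz1, hz2⟩, hz3⟩⟩ :=
      ray_point (sC m) x (sR m) (sR_pos m) hm _ (hns.and hev)
    have hi : i = inR m := regions_disjoint Om i (inR m) y
      (hy2.1 (by rw [hcs, hrs]; exact hy3)) (hy1.1 hy3)
    have hj : j = outR m := regions_disjoint Om j (outR m) z
      (hz2.2 (by rw [hcs, hrs]; exact hz3)) (hz1.2.1 hz3)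
    rw [hi, hj, hrs]
    exact pr_eq m
  · intro i j x hx n d hn hnx hev
    exfalso
    apply hn
    obtain ⟨m, hm⟩ := interface_sphere h i j x hx
    apply lin_const (sC m) (sR m) (sR_pos m) x hm
    filter_upwards [near_sphere h m x hm, hev] with y hy1 hy2 hy
    have hno := hy1.2.2 hy
    rw [hnx]
    rcases lt_trichotomy (inner ℝ n y) d with h1 | h1 | h1
    · exact absurd (hy2.1 h1) (hno i)
    · exact h1
    · exact absurd (hy2.2 h1) (hno j)

end Pool.Agent.N891.KS
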