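import Pool.Agent.N891.KS.Ex

open MeasureTheory Set Metric
open scoped ENNReal Topology ContDiff Pointwise

noncomputable section

namespace Pool.Agent.N891.KS

/-- great circles -/
lemma circle_mem (c u v : E3) (r : ℝ) (hr : 0 < r) (hu : ‖u‖ = r) (hv : ‖v‖ = r)
    (huv : inner ℝ u v = 0) (θ : ℝ) :
    c + (Real.cos θ • u + Real.sin θ • v) ∈ sphere c r := by
  rw [mem_sphere, dist_eq_norm, add_sub_cancel_left]
  have h : ‖Real.cos θ • u + Real.sin θ • v‖ ^ 2 = r ^ 2 := by
    rw [norm_add_sq_real, norm_smul, norm_smul, inner_smul_left, inner_smul_right, huv, hu, hv,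
      Real.norm_eq_abs, Real.norm_eq_abs, mul_pow, mul_pow, sq_abs, sq_abs]
    have := Real.sin_sq_add_cos_sq θ
    simp only [conj_trivial, mul_zero, add_zero]
    linear_combination r ^ 2 * this
  exact (pow_left_inj₀ (norm_nonneg _) hr.le two_ne_zero).mp h

/-- A linear function which is constant on a piece of a sphere vanishes. -/
theorem lin_const (c : E3) (r : ℝ) (hr : 0 < r) (x : E3) (hx : x ∈ sphere c r) (w : E3)
    (h : ∀ᶠ y in 𝓝 x, y ∈ sphere c r → inner ℝ w y = inner ℝ w x) : w = 0 := by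
  set u : E3 := x - c with hu
  have hnu : ‖u‖ = r := by rw [hu, ← dist_eq_norm]; exact hx
  -- perpendicular directions
  have key : ∀ v : E3, ‖v‖ = r → inner ℝ u v = 0 → inner ℝ w v = 0 ∧ inner ℝ w u = 0 := by
    intro v hv huv
    let γ : ℝ → E3 := fun θ => c + (Real.cos θ • u + Real.sin θ • v)
    have hγ : Continuous γ := by fun_prop
    have hγ0 : γ 0 = x := by simp [γ, hu]
    have hev : ∀ᶠ θ in 𝓝 (0 : ℝ), γ θ ∈ sphere c r → inner ℝ w (γ θ) = inner ℝ w x := by
      have := hγ.continuousAt (x := 0)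
      rw [ContinuousAt, hγ0] at this
      exact this.eventually h
    obtain ⟨ε, hε, hball⟩ := Metric.eventually_nhds_iff.mp hev
    have hmain : ∀ θ : ℝ, |θ| < ε →
        (Real.cos θ - 1) * inner ℝ w u + Real.sin θ * inner ℝ w v = 0 := by
      intro θ hθ
      have h1 := hball (by rw [Real.dist_eq, sub_zero]; exact hθ)
        (circle_mem c u v r hr hnu hv huv θ)
      have hxc : x = c + u := by rw [hu]; abel
      simp only [γ] at h1
      rw [hxc, inner_add_right, inner_add_right, inner_add_right, inner_smul_right,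
        inner_smul_right] at h1
      linear_combination h1
    -- choose θ
    set θ : ℝ := min (ε / 2) 1 with hθdef
    have hθpos : 0 < θ := lt_min (by linarith) one_pos
    have hθε : |θ| < ε := by
      rw [abs_of_pos hθpos]
      exact lt_of_le_of_lt (min_le_left _ _) (by linarith)
    have h1 := hmain θ hθε
    have h2 := hmain (-θ) (by rwa [abs_neg])
    rw [Real.cos_neg, Real.sin_neg] at h2
    have hsin : 0 < Real.sin θ :=
      Real.sin_pos_of_pos_of_lt_pi hθpos
        (lt_of_le_of_lt (min_le_right _ _) (by linarith [Real.pi_gt_three]))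
    have hcos : Real.cos θ < 1 := by
      have := Real.sin_sq_add_cos_sq θ
      nlinarith [Real.cos_le_one θ, sq_nonneg (Real.cos θ), hsin]
    have e1 : Real.sin θ * inner ℝ w v = 0 := by linear_combination (h1 - h2) / 2
    have e2 : (Real.cos θ - 1) * inner ℝ w u = 0 := by linear_combination (h1 + h2) / 2
    constructor
    · exact (mul_eq_zero.mp e1).resolve_left hsin.ne'
    · exact (mul_eq_zero.mp e2).resolve_left (by linarith)
  -- a perpendicular vector exists
  have hune : u ≠ 0 := by
    intro h0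
    rw [h0, norm_zero] at hnu
    linarith
  obtain ⟨v0, hv0, hv0u⟩ : ∃ v0 : E3, v0 ≠ 0 ∧ inner ℝ u v0 = 0 := by
    have hfin : Module.finrank ℝ (ℝ ∙ u : Submodule ℝ E3)ᗮ = 2 := by
      have h3 : Module.finrank ℝ E3 = 3 := by simp
      have h1 := Submodule.finrank_add_finrank_orthogonal (ℝ ∙ u : Submodule ℝ E3)
      rw [finrank_span_singleton hune, h3] at h1
      omega
    obtain ⟨v0, hv0⟩ : ∃ v0 : (ℝ ∙ u : Submodule ℝ E3)ᗮ, v0 ≠ 0 := by
      by_contra hcon
      push Not at hcon
      have : Module.finrank ℝ (ℝ ∙ u : Submodule ℝ E3)ᗮ = 0 :=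
        finrank_zero_iff_forall_zero.mpr hcon
      omega
    refine ⟨v0, fun h => hv0 (Subtype.ext h), ?_⟩
    exact Submodule.mem_orthogonal_singleton_iff_inner_right.mp v0.2
  have hscale : ∀ v : E3, v ≠ 0 → inner ℝ u v = 0 → inner ℝ w v = 0 ∧ inner ℝ w u = 0 := by
    intro v hv huv
    have hvn : 0 < ‖v‖ := norm_pos_iff.mpr hv
    obtain ⟨a, b⟩ := key ((r / ‖v‖) • v)
      (by rw [norm_smul, Real.norm_eq_abs, abs_of_pos (div_pos hr hvn)]; field_simp)
      (by rw [inner_smul_right, huv, mul_zero])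
    rw [inner_smul_right] at a
    exact ⟨(mul_eq_zero.mp a).resolve_left (div_pos hr hvn).ne', b⟩
  have hwu : inner ℝ w u = 0 := (hscale v0 hv0 hv0u).2
  by_contra hw
  have := (hscale w hw (by rw [real_inner_comm]; exact hwu)).1
  exact hw (inner_self_eq_zero.mp this)

end Pool.Agent.N891.KS
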